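import Mathlib

set_option autoImplicit false
open Finset

namespace Pool.Agent.H.MP_9441bf_co

variable {G H : Type} [AddCommGroup G] [AddCommGroup H] [Fintype G] [DecidableEq G] [DecidableEq H]

def m (g : G → H) (t : G) (w : H) : ℕ := (univ.filter (fun x : G => g (x + t) - g x ≠ w)).card

def K (g h : G → H) (t : G) : ℕ :=
  (univ.filter (fun p : G × G => g (p.1 + t) - g p.1 ≠ h (p.2 + t) - h p.2)).card

omit [AddCommGroup G] in
lemma two (P : G × G → Prop) [DecidablePred P] (B : Finset (G × G)) (s1 s2 : G × G → G × G)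
    (h1 : Function.Injective s1) (h2 : Function.Injective s2)
    (h : ∀ p, P p → s1 p ∈ B ∨ s2 p ∈ B) : (univ.filter P).card ≤ 2 * B.card := by
  have a1 : (univ.filter (fun p => s1 p ∈ B)).card ≤ B.card :=
    card_le_card_of_injOn s1 (by intro p hp; simpa using hp) h1.injOn
  have a2 : (univ.filter (fun p => s2 p ∈ B)).card ≤ B.card :=
    card_le_card_of_injOn s2 (by intro p hp; simpa using hp) h2.injOn
  have a3 : univ.filter P ⊆ univ.filter (fun p => s1 p ∈ B) ∪ univ.filter (fun p => s2 p ∈ B) := by
    intro p hp
    simpa using h p (by simpa using hp)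
  have := (card_le_card a3).trans (card_union_le _ _)
  omega

omit [DecidableEq G] in
lemma dis (g h : G → H) (t : G) (w : H) :
    ((Fintype.card G : ℝ) - m g t w) * m h t w + m g t w * ((Fintype.card G : ℝ) - m h t w)
      ≤ K g h t := by
  classical
  have e : ∀ g : G → H, ((univ.filter (fun x : G => g (x + t) - g x = w)).card : ℝ)
      = (Fintype.card G : ℝ) - m g t w := by
    intro g
    have := card_filter_add_card_filter_not (s := (univ : Finset G))
      (fun x : G => g (x + t) - g x = w)
    rw [card_univ] at this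
    rw [← this, m]; push_cast; ring
  rw [← e g, ← e h, m, m, K]
  have hd : Disjoint ((univ.filter (fun x : G => g (x + t) - g x = w)) ×ˢ
      (univ.filter (fun x : G => h (x + t) - h x ≠ w)))
      ((univ.filter (fun x : G => g (x + t) - g x ≠ w)) ×ˢ
      (univ.filter (fun x : G => h (x + t) - h x = w))) := by
    rw [disjoint_left]
    intro p h1 h2
    simp only [mem_product, mem_filter, mem_univ, true_and] at h1 h2
    exact h2.1 h1.1
  have hs : ((univ.filter (fun x : G => g (x + t) - g x = w)) ×ˢ
        (univ.filter (fun x : G => h (x + t) - h x ≠ w))) ∪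
        ((univ.filter (fun x : G => g (x + t) - g x ≠ w)) ×ˢ
        (univ.filter (fun x : G => h (x + t) - h x = w))) ⊆ univ.filter
        (fun p : G × G => g (p.1 + t) - g p.1 ≠ h (p.2 + t) - h p.2) := by
    intro p hp
    rcases mem_union.1 hp with h1 | h1
    · simp only [mem_product, mem_filter, mem_univ, true_and] at h1 ⊢
      rw [h1.1]; exact h1.2.symm
    · simp only [mem_product, mem_filter, mem_univ, true_and] at h1 ⊢
      rw [h1.2]; exact h1.1
  have := card_le_card hs
  rw [card_union_of_disjoint hd, card_product, card_product] at this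
  exact_mod_cast this

omit [DecidableEq G] in
lemma ex (g h : G → H) (t : G) (hK : 9 * K g h t < 4 * Fintype.card G ^ 2) :
    ∃ w, 9 * m g t w < 4 * Fintype.card G := by
  have h1 : ∑ u, m g t (h (u + t) - h u) = K g h t := by
    simp only [m, K, card_filter]
    rw [Fintype.sum_prod_type_right]
  by_contra hh
  push Not at hh
  have := sum_le_sum (s := (univ : Finset G)) (fun u _ => hh (h (u + t) - h u))
  rw [sum_const, ← mul_sum, h1, card_univ, smul_eq_mul] at this
  nlinarith

lemma arith (N x y z : ℝ) (hx : 9 * x < 4 * N) (hx0 : 0 ≤ x)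
    (h1 : 9 * ((N - x) * y + x * (N - y)) < 4 * N ^ 2)
    (h2 : 9 * ((N - x) * z + x * (N - z)) < 4 * N ^ 2)
    (h3 : 9 * ((N - y) * z + y * (N - z)) < 4 * N ^ 2) : x + y + z < N := by
  have hN : 0 < N := by linarith
  have hP : 0 < N - 2 * x := by linarith
  have a1 : N ^ 2 < 9 * ((N - 2 * x) * (N - 2 * y)) := by nlinarith
  have a2 : N ^ 2 < 9 * ((N - 2 * x) * (N - 2 * z)) := by nlinarith
  have a3 : N ^ 2 < 9 * ((N - 2 * y) * (N - 2 * z)) := by nlinarith
  have hN2 : 0 < N ^ 2 := by positivity
  have hQ : 0 < N - 2 * y := pos_of_mul_pos_left (a := N - 2 * y) (b := N - 2 * x) (by nlinarith) hP.le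
  have hS : 0 < N - 2 * z := pos_of_mul_pos_left (a := N - 2 * z) (b := N - 2 * x) (by nlinarith) hP.le
  have a4 : N ^ 2 < ((N - 2 * x) + (N - 2 * y) + (N - 2 * z)) ^ 2 := by
    nlinarith [sq_nonneg (x - y), sq_nonneg (x - z), sq_nonneg (y - z)]
  have := lt_of_pow_lt_pow_left₀ 2 (by positivity) a4
  linarith

lemma addi (g : G → H) (s t : G) (u v w : H)
    (h : m g s u + m g t v + m g (s + t) w < Fintype.card G) : w = u + v := by
  have e : (univ.filter (fun x : G => g (x + s + t) - g (x + s) ≠ v)).card = m g t v :=
    card_bij (fun x _ => x + s) (by intro x hx; simpa using hx)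
      (by intro x _ y _ h; simpa using h) (by intro y hy; exact ⟨y - s, by simpa using hy, by simp⟩)
  rw [← e, m, m] at h
  have h4 : ((univ.filter (fun x : G => g (x + s) - g x ≠ u)) ∪
      (univ.filter (fun x : G => g (x + s + t) - g (x + s) ≠ v)) ∪
      (univ.filter (fun x : G => g (x + (s + t)) - g x ≠ w))).card
      < (univ : Finset G).card := by
    refine lt_of_le_of_lt (card_union_le _ _) ?_
    have := card_union_le (univ.filter (fun x : G => g (x + s) - g x ≠ u))
      (univ.filter (fun x : G => g (x + s + t) - g (x + s) ≠ v))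
    rw [card_univ]; omega
  obtain ⟨x, -, hx⟩ := exists_mem_notMem_of_card_lt_card h4
  simp only [mem_union, mem_filter, mem_univ, true_and, not_or, not_not] at hx
  rw [← hx.2, ← hx.1.1, ← hx.1.2, add_assoc]; abel

lemma step (a b c : G → H)
    (hB : 9 * (univ.filter (fun p : G × G => c (p.1 + p.2) ≠ a p.1 + b p.2)).card
      < 2 * Fintype.card G ^ 2) (t : G) :
    ∃ w : H, m c t w + m a t w + m b t w < Fintype.card G := by
  set B := univ.filter (fun p : G × G => c (p.1 + p.2) ≠ a p.1 + b p.2) with hBd
  have k1 : K c a t ≤ 2 * B.card := by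
    refine two _ B (fun p => (p.2, p.1 - p.2)) (fun p => (p.2 + t, p.1 - p.2)) ?_ ?_ ?_
    · intro p q h
      simp only [Prod.mk.injEq] at h
      exact Prod.ext (by have := h.2; rw [h.1] at this; simpa using this) h.1
    · intro p q h
      simp only [Prod.mk.injEq, add_left_inj] at h
      exact Prod.ext (by have := h.2; rw [h.1] at this; simpa using this) h.1
    · intro p hp
      by_contra hh
      simp only [hBd, mem_filter, mem_univ, true_and, not_or, not_not] at hh
      apply hp
      have e1 : p.2 + (p.1 - p.2) = p.1 := by abel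
      have e2 : p.2 + t + (p.1 - p.2) = p.1 + t := by abel
      rw [e1, e2] at hh
      rw [hh.1, hh.2]; abel
  have k2 : K c b t ≤ 2 * B.card := by
    refine two _ B (fun p => (p.1 - p.2, p.2)) (fun p => (p.1 - p.2, p.2 + t)) ?_ ?_ ?_
    · intro p q h
      simp only [Prod.mk.injEq] at h
      exact Prod.ext (by have := h.1; rw [h.2] at this; simpa using this) h.2
    · intro p q h
      simp only [Prod.mk.injEq, add_left_inj] at h
      exact Prod.ext (by have := h.1; rw [h.2] at this; simpa using this) h.2
    · intro p hp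
      by_contra hh
      simp only [hBd, mem_filter, mem_univ, true_and, not_or, not_not] at hh
      apply hp
      have e1 : p.1 - p.2 + p.2 = p.1 := by abel
      have e2 : p.1 - p.2 + (p.2 + t) = p.1 + t := by abel
      rw [e1, e2] at hh
      rw [hh.1, hh.2]; abel
  have k3 : K a b t ≤ 2 * B.card := by
    refine two _ B (fun p => (p.1 + t, p.2)) (fun p => (p.1, p.2 + t)) ?_ ?_ ?_
    · intro p q h
      simp only [Prod.mk.injEq, add_left_inj] at h
      exact Prod.ext h.1 h.2
    · intro p q h
      simp only [Prod.mk.injEq, add_left_inj] at h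
      exact Prod.ext h.1 h.2
    · intro p hp
      by_contra hh
      simp only [hBd, mem_filter, mem_univ, true_and, not_or, not_not] at hh
      apply hp
      have e1 : p.1 + t + p.2 = p.1 + (p.2 + t) := by abel
      rw [e1, hh.2] at hh
      rw [sub_eq_sub_iff_add_eq_add, ← hh.1, add_comm]
  obtain ⟨w, hw⟩ := ex c a t (by omega)
  refine ⟨w, ?_⟩
  have r : ∀ g h : G → H, K g h t ≤ 2 * B.card →
      9 * (((Fintype.card G : ℝ) - m g t w) * m h t w + m g t w * ((Fintype.card G : ℝ) - m h t w))
        < 4 * (Fintype.card G : ℝ) ^ 2 := by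
    intro g h hk
    have h1 := dis g h t w
    have h2 : 9 * K g h t < 4 * Fintype.card G ^ 2 := by omega
    have h3 : 9 * (K g h t : ℝ) < 4 * (Fintype.card G : ℝ) ^ 2 := by exact_mod_cast h2
    linarith
  have := arith (Fintype.card G) (m c t w) (m a t w) (m b t w) (by exact_mod_cast hw)
    (Nat.cast_nonneg _) (r c a k1) (r c b k2) (r a b k3)
  exact_mod_cast this

theorem main (a b : G → H) (c : G ≃ H)
    (hB : 9 * (univ.filter (fun p : G × G => c (p.1 + p.2) ≠ a p.1 + b p.2)).card
      < 2 * Fintype.card G ^ 2) : Nonempty (G ≃+ H) := by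
  choose f hf using step a b c hB
  have hadd : ∀ s t, f (s + t) = f s + f t := by
    intro s t
    have h1 := hf s
    have h2 := hf t
    have h3 := hf (s + t)
    by_cases q1 : m c s (f s) + m c t (f t) + m c (s + t) (f (s + t)) < Fintype.card G
    · exact addi c s t _ _ _ q1
    by_cases q2 : m a s (f s) + m a t (f t) + m a (s + t) (f (s + t)) < Fintype.card G
    · exact addi a s t _ _ _ q2
    exact addi b s t _ _ _ (by omega)
  let g : G →+ H := AddMonoidHom.mk' f hadd
  have hinj : Function.Injective g := by
    rw [injective_iff_map_eq_zero]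
    intro t ht
    have h1 := hf t
    have h4 : (univ.filter (fun x : G => c (x + t) - c x ≠ f t)).card < (univ : Finset G).card := by
      rw [card_univ]
      exact lt_of_le_of_lt (show m c t (f t) ≤ _ by omega) h1
    obtain ⟨x, -, hx⟩ := exists_mem_notMem_of_card_lt_card h4
    simp only [mem_filter, mem_univ, true_and, not_not] at hx
    have h5 : f t = 0 := ht
    rw [h5, sub_eq_zero] at hx
    simpa using c.injective hx
  have : Fintype H := Fintype.ofEquiv G c
  exact ⟨AddEquiv.ofBijective g ((Fintype.bijective_iff_injective_and_card g).2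
    ⟨hinj, Fintype.card_congr c⟩)⟩

end Pool.Agent.H.MP_9441bf_co
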